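import Pool.Agent.helper37.CZ.SpecD

set_option autoImplicit false

open scoped Matrix Topology ComplexConjugate
open Filter

namespace Pool.Agent.CZ

theorem FPM_up_add {A : Type} [CStarAlgebra A] (u : unitary A) (m k : ℤ) :
    up u (m + k) = up u m * up u k := by
  unfold up
  rw [zpow_add]
  rfl

section
variable {X : Type} [TopologicalSpace X] [CompactSpace X] {A : Type} [CStarAlgebra A]
  (ι : C(X, ℂ) →⋆ₐ[ℂ] A) (u : unitary A)

theorem FPM_of (F : ℤ → C(X, ℂ)) (a : A) (S : Finset ℤ) (hS : ∀ n, n ∉ S → F n = 0)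
    (ha : a = ∑ n ∈ S, ι (F n) * up u n) : IsFin ι u F a := by
  refine ⟨S.finite_toSet.subset fun n hn => ?_, ?_⟩
  · by_contra h
    exact hn (hS n h)
  · rw [ha]
    symm
    refine finsum_eq_sum_of_support_subset _ fun n hn => ?_
    by_contra h
    apply hn
    show ι (F n) * up u n = 0
    rw [hS n h, map_zero, zero_mul]

theorem FPM_to (F : ℤ → C(X, ℂ)) (a : A) (h : IsFin ι u F a) :
    ∃ S : Finset ℤ, (∀ n, n ∉ S → F n = 0) ∧ ∀ S' : Finset ℤ, S ⊆ S' →
      a = ∑ n ∈ S', ι (F n) * up u n := by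
  obtain ⟨h1, h2⟩ := h
  refine ⟨h1.toFinset, ?_, ?_⟩
  · intro n hn
    by_contra h
    exact hn (h1.mem_toFinset.mpr h)
  · intro S' hS'
    rw [h2]
    refine finsum_eq_sum_of_support_subset _ fun n hn => ?_
    refine hS' (h1.mem_toFinset.mpr ?_)
    intro h
    apply hn
    show ι (F n) * up u n = 0
    rw [h, map_zero, zero_mul]

end

theorem FPM (h1 : CEX_stmt) : FPM_stmt := by
  classical
  intro X _ _ α A _ ι u c hc K J L V W κ μ hV hW i l
  have hsh0 : ∀ m : ℤ, sh α m (0 : C(X, ℂ)) = 0 := by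
    intro m
    ext x
    rfl
  choose F hF hFx using fun j => hV i j
  choose G hG hGx using fun j => hW j l
  choose S hS hSs using fun j => FPM_to ι u (F j) (V i j) (hF j)
  choose T hT hTs using fun j => FPM_to ι u (G j) (W j l) (hG j)
  let SS : Finset ℤ := Finset.univ.biUnion S
  let TT : Finset ℤ := Finset.univ.biUnion T
  have hSS : ∀ j n, n ∉ SS → F j n = 0 := by
    intro j n hn
    apply hS j n
    intro h
    exact hn (Finset.mem_biUnion.mpr ⟨j, Finset.mem_univ _, h⟩)
  have hTT : ∀ j n, n ∉ TT → G j n = 0 := by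
    intro j n hn
    apply hT j n
    intro h
    exact hn (Finset.mem_biUnion.mpr ⟨j, Finset.mem_univ _, h⟩)
  have eV : ∀ j, V i j = ∑ n ∈ SS, ι (F j n) * up u n := fun j =>
    hSs j SS (Finset.subset_biUnion_of_mem S (Finset.mem_univ j))
  have eW : ∀ j, W j l = ∑ n ∈ TT, ι (G j n) * up u n := fun j =>
    hTs j TT (Finset.subset_biUnion_of_mem T (Finset.mem_univ j))
  let U : Finset ℤ := (SS ×ˢ TT).image (fun p => p.1 + p.2)
  have hU : ∀ m ∈ SS, ∀ n, n ∉ U → n - m ∉ TT := by
    intro m hm n hn h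
    exact hn (Finset.mem_image.mpr ⟨(m, n - m), Finset.mem_product.mpr ⟨hm, h⟩, by
      show m + (n - m) = n
      ring⟩)
  refine ⟨fun n => ∑ j, ∑ m ∈ SS, F j m * sh α (-m) (G j (n - m)), ?_, ?_⟩
  · refine FPM_of ι u _ _ U ?_ ?_
    · intro n hn
      refine Finset.sum_eq_zero fun j _ => Finset.sum_eq_zero fun m hm => ?_
      rw [hTT j (n - m) (hU m hm n hn), hsh0, mul_zero]
    · rw [Matrix.mul_apply]
      have e1 : ∀ n, ι (∑ j, ∑ m ∈ SS, F j m * sh α (-m) (G j (n - m))) * up u n =
          ∑ j, ∑ m ∈ SS, ι (F j m * sh α (-m) (G j (n - m))) * up u n := by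
        intro n
        rw [map_sum, Finset.sum_mul]
        refine Finset.sum_congr rfl fun j _ => ?_
        rw [map_sum, Finset.sum_mul]
      rw [Finset.sum_congr rfl fun n _ => e1 n, Finset.sum_comm]
      refine Finset.sum_congr rfl fun j _ => ?_
      rw [Finset.sum_comm, eV j, eW j, Finset.sum_mul]
      refine Finset.sum_congr rfl fun m hm => ?_
      rw [Finset.mul_sum]
      have e2 : ∑ k ∈ TT, ι (F j m * sh α (-m) (G j k)) * up u (m + k) =
          ∑ n ∈ U, ι (F j m * sh α (-m) (G j (n - m))) * up u n := by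
        have e3 : ∑ n ∈ TT.image (fun k => m + k), ι (F j m * sh α (-m) (G j (n - m))) * up u n =
            ∑ k ∈ TT, ι (F j m * sh α (-m) (G j k)) * up u (m + k) := by
          rw [Finset.sum_image]
          · refine Finset.sum_congr rfl fun k _ => ?_
            rw [add_sub_cancel_left]
          · intro a _ b _ hab
            exact add_left_cancel hab
        rw [← e3]
        refine Finset.sum_subset ?_ ?_
        · intro n hn
          obtain ⟨k, hk, hkn⟩ := Finset.mem_image.mp hn
          exact Finset.mem_image.mpr ⟨(m, k), Finset.mem_product.mpr ⟨hm, hk⟩, hkn⟩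
        · intro n _ hn
          have : n - m ∉ TT := by
            intro h
            exact hn (Finset.mem_image.mpr ⟨n - m, h, by ring⟩)
          rw [hTT j _ this, hsh0, mul_zero, map_zero, zero_mul]
      rw [← e2]
      refine Finset.sum_congr rfl fun k _ => ?_
      have e4 := h1 X α A ι u c hc m (G j k)
      calc ι (F j m) * up u m * (ι (G j k) * up u k)
          = ι (F j m) * (up u m * ι (G j k)) * up u k := by noncomm_ring
        _ = ι (F j m) * (ι (sh α (-m) (G j k)) * up u m) * up u k := by rw [e4]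
        _ = ι (F j m * sh α (-m) (G j k)) * up u (m + k) := by
            rw [map_mul, FPM_up_add]
            noncomm_ring
  · intro n x
    show (∑ j, ∑ m ∈ SS, F j m * sh α (-m) (G j (n - m))) x =
      ∑ j, ∑' m : ℤ, κ i j m x * μ j l (n - m) ((α ^ (-m)) x)
    rw [ContinuousMap.sum_apply]
    refine Finset.sum_congr rfl fun j _ => ?_
    rw [ContinuousMap.sum_apply, tsum_eq_sum (s := SS)]
    · refine Finset.sum_congr rfl fun m _ => ?_
      rw [← hFx, ← hGx]
      rfl
    · intro m hm
      rw [← hFx, hSS j m hm]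
      show (0 : ℂ) * _ = 0
      rw [zero_mul]

end Pool.Agent.CZ
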